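import Pool.Agent.Q18.HQ.Stmts

set_option autoImplicit false

namespace Pool.Agent.Q83.HQO1a

open Pool.Agent.Q18.HQ

theorem dA : ∀ M e N : ZMod 8, N ^ 2 = 2 * M ^ 4 + 5 * M ^ 2 * e ^ 2 → 4 * M = 0 := by decide

theorem dB : ∀ m e n : ZMod 8, 4 * e ≠ 0 → n ^ 2 = 5 * m ^ 2 * e ^ 2 → 4 * m = 0 := by decide

theorem dC : ∀ k e n c : ZMod 4, 2 * e ≠ 0 → 2 * c ≠ 0 → n ^ 2 ≠ k ^ 2 * e ^ 2 + 2 * c * e ^ 4 := by
  decide

theorem obs_gen (a d c : ℤ) (ha : ((a : ℤ) : ZMod 8) = 5) (ha4 : ((a : ℤ) : ZMod 4) = 1)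
    (hd : ((d : ℤ) : ZMod 8) = 2) (hc : ((2 * c : ℤ) : ZMod 4) ≠ 0) : Obs a d (32 * c) := by
  intro M e N hcop heq
  have e8 : ((32 : ℤ) : ZMod 8) = 0 := by decide
  have cast8 : ∀ z : ℤ, 4 * (z : ZMod 8) = 0 → ∃ k, z = 2 * k := by
    intro z hz
    have h1 : ((4 * z : ℤ) : ZMod 8) = 0 := by push_cast; exact hz
    rw [ZMod.intCast_zmod_eq_zero_iff_dvd] at h1
    obtain ⟨k, hk⟩ := h1
    push_cast at hk
    exact ⟨k, by omega⟩
  have s1 := congrArg (fun z : ℤ => (z : ZMod 8)) heq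
  push_cast at s1
  have e32 : (32 : ZMod 8) = 0 := by decide
  rw [ha, hd, e32] at s1
  obtain ⟨m, rfl⟩ := cast8 M (dA M e N (by rw [s1]; ring))
  have heodd : ¬ ∃ k, e = 2 * k := by
    rintro ⟨k, rfl⟩
    obtain ⟨x, y, hxy⟩ := hcop
    have : (2 : ℤ) * (x * m + y * k) = 1 := by linear_combination hxy
    omega
  have heodd8 : 4 * (e : ZMod 8) ≠ 0 := fun h => heodd (cast8 e h)
  have hN2 : (2 : ℤ) ∣ N ^ 2 := ⟨d * 8 * m ^ 4 + a * 2 * m ^ 2 * e ^ 2 + 16 * c * e ^ 4, by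
    rw [heq]; ring⟩
  obtain ⟨n, rfl⟩ := Int.prime_two.dvd_of_dvd_pow hN2
  have h2 : n ^ 2 = 4 * d * m ^ 4 + a * m ^ 2 * e ^ 2 + 8 * c * e ^ 4 := by
    have : (4 : ℤ) * n ^ 2 = 4 * (4 * d * m ^ 4 + a * m ^ 2 * e ^ 2 + 8 * c * e ^ 4) := by
      linear_combination heq
    linarith
  have s2 := congrArg (fun z : ℤ => (z : ZMod 8)) h2
  push_cast at s2
  have e8' : (8 : ZMod 8) = 0 := by decide
  have e42 : (4 : ZMod 8) * 2 = 0 := by decide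
  rw [ha, hd, e8', e42] at s2
  obtain ⟨k, rfl⟩ := cast8 m (dB m e n heodd8 (by rw [s2]; ring))
  have hn2 : (2 : ℤ) ∣ n ^ 2 := ⟨32 * d * k ^ 4 + 2 * a * k ^ 2 * e ^ 2 + 4 * c * e ^ 4, by
    rw [h2]; ring⟩
  obtain ⟨n1, rfl⟩ := Int.prime_two.dvd_of_dvd_pow hn2
  have h3 : n1 ^ 2 = 16 * d * k ^ 4 + a * k ^ 2 * e ^ 2 + 2 * c * e ^ 4 := by
    have : (4 : ℤ) * n1 ^ 2 = 4 * (16 * d * k ^ 4 + a * k ^ 2 * e ^ 2 + 2 * c * e ^ 4) := by
      linear_combination h2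
    linarith
  have s3 := congrArg (fun z : ℤ => (z : ZMod 4)) h3
  push_cast at s3
  have e16 : (16 : ZMod 4) = 0 := by decide
  rw [ha4, e16] at s3
  refine dC k e n1 c ?_ (by push_cast at hc; exact hc) (by rw [s3]; ring)
  intro h
  apply heodd
  have h1 : ((2 * e : ℤ) : ZMod 4) = 0 := by push_cast; exact h
  rw [ZMod.intCast_zmod_eq_zero_iff_dvd] at h1
  obtain ⟨j, hj⟩ := h1
  push_cast at hj
  exact ⟨j, by omega⟩

theorem main : Pool.Agent.Q18.HQ.TaskO1a := by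
  refine ⟨?_, ?_⟩
  · have := obs_gen (-72579) 2 17578125 (by decide) (by decide) (by decide) (by decide)
    norm_num at this
    exact this
  · have := obs_gen (-72579) 10 3515625 (by decide) (by decide) (by decide) (by decide)
    norm_num at this
    exact this

end Pool.Agent.Q83.HQO1a
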